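import Mathlib

set_option autoImplicit false

/-!
# Presentations over a noetherian local ring from the quotients by the powers of the maximal ideal

Helper file of project GN (helper78). Mathlib only.
-/

namespace Pool.Agent.D0H78.GN

open scoped TensorProduct
open Function

section

variable {A : Type} [CommRing A] {D : Type} [AddCommGroup D] [Module A D] {p q : ℕ}

theorem one_tmul_zero (I : Ideal A) (x : D) (h : (1 : A ⧸ I) ⊗ₜ[A] x = 0) :
    x ∈ I • (⊤ : Submodule A D) := by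
  have h1 := congrArg (TensorProduct.quotTensorEquivQuotSMul D I) h
  rw [map_zero] at h1
  have h2 := TensorProduct.quotTensorEquivQuotSMul_mk_tmul (M := D) I 1 x
  rw [map_one, h1, one_smul] at h2
  exact (Submodule.Quotient.mk_eq_zero _).1 h2.symm

theorem tmul_comb (I : Ideal A) {n : ℕ} (a : Fin n → A) (d : Fin n → D) :
    ∑ i, (Ideal.Quotient.mk I (a i)) • ((1 : A ⧸ I) ⊗ₜ[A] d i) =
      (1 : A ⧸ I) ⊗ₜ[A] (∑ i, a i • d i) := by
  rw [TensorProduct.tmul_sum]
  refine Finset.sum_congr rfl fun i _ => ?_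
  rw [TensorProduct.tmul_smul, TensorProduct.smul_tmul', TensorProduct.smul_tmul', smul_eq_mul,
    Algebra.smul_def]
  rfl

/-- the lift of a vector -/
theorem exists_vec (I : Ideal A) {n : ℕ} (c : Fin n → A ⧸ I) :
    ∃ a : Fin n → A, ∀ i, Ideal.Quotient.mk I (a i) = c i :=
  ⟨fun i => (Ideal.Quotient.mk_surjective (c i)).choose,
    fun i => (Ideal.Quotient.mk_surjective (c i)).choose_spec⟩

theorem lin_eq {R M : Type} [CommRing R] [AddCommGroup M] [Module R M] {n : ℕ}
    (f : (Fin n → R) →ₗ[R] M) (c : Fin n → R) : f c = ∑ i, c i • f (Pi.single i 1) := by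
  conv_lhs => rw [← Finset.univ_sum_single c, map_sum]
  refine Finset.sum_congr rfl fun i _ => ?_
  rw [← map_smul]
  congr 1
  rw [← Pi.single_smul, smul_eq_mul, mul_one]

theorem gens [Module.Finite A D] (I : Ideal A) (hI : I ≤ (⊥ : Ideal A).jacobson)
    (π1 : (Fin p → A ⧸ I) →ₗ[A ⧸ I] ((A ⧸ I) ⊗[A] D)) (h1 : Surjective π1) :
    ∃ π : (Fin p → A) →ₗ[A] D, Surjective π := by
  have hs : Surjective (TensorProduct.mk A (A ⧸ I) D 1) :=
    TensorProduct.mk_surjective A D (A ⧸ I) Ideal.Quotient.mk_surjective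
  choose d hd using fun i : Fin p => hs (π1 (Pi.single i 1))
  refine ⟨Fintype.linearCombination A d, ?_⟩
  rw [← LinearMap.range_eq_top, eq_top_iff]
  refine Submodule.le_of_le_smul_of_le_jacobson_bot Module.Finite.fg_top hI fun x _ => ?_
  obtain ⟨c, hc⟩ := h1 ((1 : A ⧸ I) ⊗ₜ[A] x)
  obtain ⟨a, ha⟩ := exists_vec I c
  have h2 : (1 : A ⧸ I) ⊗ₜ[A] (x - ∑ i, a i • d i) = 0 := by
    rw [TensorProduct.tmul_sub, ← tmul_comb, ← hc, lin_eq π1 c, sub_eq_zero]
    refine Finset.sum_congr rfl fun i _ => ?_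
    rw [ha, ← hd]
    rfl
  have h3 := one_tmul_zero I _ h2
  have h4 : x = ∑ i, a i • d i + (x - ∑ i, a i • d i) := by abel
  rw [h4]
  exact Submodule.add_mem_sup ⟨a, by rw [Fintype.linearCombination_apply]⟩ h3

/-- the reduction of a surjection -/
theorem red (I : Ideal A) (π : (Fin p → A) →ₗ[A] D) (h : Surjective π) :
    ∃ π' : (Fin p → A ⧸ I) →ₗ[A ⧸ I] ((A ⧸ I) ⊗[A] D), Surjective π' ∧
      ∀ x : Fin p → A, π' (fun i => Ideal.Quotient.mk I (x i)) = 1 ⊗ₜ[A] π x := by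
  have key : ∀ x : Fin p → A, Fintype.linearCombination (A ⧸ I)
      (fun i => (1 : A ⧸ I) ⊗ₜ[A] π (Pi.single i 1)) (fun i => Ideal.Quotient.mk I (x i)) =
      1 ⊗ₜ[A] π x := by
    intro x
    rw [Fintype.linearCombination_apply, tmul_comb, ← lin_eq]
  refine ⟨Fintype.linearCombination (A ⧸ I) (fun i => (1 : A ⧸ I) ⊗ₜ[A] π (Pi.single i 1)),
    ?_, key⟩
  intro z
  obtain ⟨d, rfl⟩ := TensorProduct.mk_surjective A D (A ⧸ I) Ideal.Quotient.mk_surjective z
  obtain ⟨x, rfl⟩ := h d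
  exact ⟨_, key x⟩

/-- vectors with entries in the ideal -/
theorem mem_smul_top (I : Ideal A) (x : Fin p → A) (h : ∀ i, Ideal.Quotient.mk I (x i) = 0) :
    x ∈ I • (⊤ : Submodule A (Fin p → A)) := by
  rw [← Finset.univ_sum_single x]
  refine Submodule.sum_mem _ fun i _ => ?_
  have h1 : (Pi.single i (x i) : Fin p → A) = x i • Pi.single i 1 := by
    rw [← Pi.single_smul, smul_eq_mul, mul_one]
  rw [h1]
  exact Submodule.smul_mem_smul (Ideal.Quotient.eq_zero_iff_mem.1 (h i)) trivial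

/-- lifting the relations -/
theorem lift_rel (I : Ideal A) (π : (Fin p → A) →ₗ[A] D) (h : Surjective π)
    (π' : (Fin p → A ⧸ I) →ₗ[A ⧸ I] ((A ⧸ I) ⊗[A] D))
    (h' : ∀ x : Fin p → A, π' (fun i => Ideal.Quotient.mk I (x i)) = 1 ⊗ₜ[A] π x)
    (φ : (Fin q → A ⧸ I) →ₗ[A ⧸ I] (Fin p → A ⧸ I))
    (hφ : LinearMap.ker π' = LinearMap.range φ) :
    ∃ y : Fin q → (Fin p → A), (∀ j, π (y j) = 0) ∧
      LinearMap.ker π ≤ Submodule.span A (Set.range y) ⊔ I • (⊤ : Submodule A (Fin p → A)) := by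
  choose y0 hy0 using fun j : Fin q => exists_vec I (φ (Pi.single j 1))
  have hw : ∀ j, ∃ w ∈ I • (⊤ : Submodule A (Fin p → A)), π w = π (y0 j) := by
    intro j
    have h1 : π' (φ (Pi.single j 1)) = 0 := by
      have h2 : φ (Pi.single j 1) ∈ LinearMap.ker π' := by
        rw [hφ]
        exact ⟨_, rfl⟩
      exact h2
    have h2 : (fun i => Ideal.Quotient.mk I (y0 j i)) = φ (Pi.single j 1) := funext (hy0 j)
    rw [← h2, h'] at h1
    have h3 := one_tmul_zero I _ h1
    have h4 : I • (⊤ : Submodule A D) = (I • (⊤ : Submodule A (Fin p → A))).map π := by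
      rw [Submodule.map_smul'', Submodule.map_top, LinearMap.range_eq_top.2 h]
    rw [h4] at h3
    obtain ⟨w, hw1, hw2⟩ := h3
    exact ⟨w, hw1, hw2⟩
  choose w hw1 hw2 using hw
  refine ⟨fun j => y0 j - w j, fun j => by rw [map_sub, hw2, sub_self], ?_⟩
  intro x hx
  have hx0 : π x = 0 := hx
  have h1 : (fun i => Ideal.Quotient.mk I (x i)) ∈ LinearMap.ker π' := by
    rw [LinearMap.mem_ker, h', hx0, TensorProduct.tmul_zero]
  rw [hφ] at h1
  obtain ⟨c, hc⟩ := h1
  obtain ⟨a, ha⟩ := exists_vec I c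
  have h2 : x - ∑ j, a j • y0 j ∈ I • (⊤ : Submodule A (Fin p → A)) := by
    refine mem_smul_top I _ fun i => ?_
    have h3 := congrFun hc i
    rw [lin_eq φ c, Finset.sum_apply] at h3
    rw [Pi.sub_apply, map_sub, sub_eq_zero, Finset.sum_apply, map_sum, ← h3]
    refine Finset.sum_congr rfl fun j _ => ?_
    rw [Pi.smul_apply, Pi.smul_apply, smul_eq_mul, smul_eq_mul, map_mul, ha, hy0]
  have h3 : x = ∑ j, a j • (y0 j - w j) + (∑ j, a j • w j + (x - ∑ j, a j • y0 j)) := by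
    have h4 : ∑ j, a j • (y0 j - w j) = ∑ j, a j • y0 j - ∑ j, a j • w j := by
      rw [← Finset.sum_sub_distrib]
      exact Finset.sum_congr rfl fun j _ => smul_sub _ _ _
    rw [h4]
    abel
  rw [h3]
  refine Submodule.add_mem_sup ?_ (Submodule.add_mem _ ?_ h2)
  · exact Submodule.sum_mem _ fun j _ => Submodule.smul_mem _ _ (Submodule.subset_span ⟨j, rfl⟩)
  · exact Submodule.sum_mem _ fun j _ => Submodule.smul_mem _ _ (hw1 j)

/-- Artin-Rees and Nakayama -/
theorem lp_core [IsLocalRing A] [IsNoetherianRing A] (π : (Fin p → A) →ₗ[A] D)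
    (h : ∀ k : ℕ, 1 ≤ k → ∃ y : Fin q → (Fin p → A), (∀ j, π (y j) = 0) ∧
      LinearMap.ker π ≤ Submodule.span A (Set.range y) ⊔
        IsLocalRing.maximalIdeal A ^ k • (⊤ : Submodule A (Fin p → A))) :
    ∃ φ : (Fin q → A) →ₗ[A] (Fin p → A), LinearMap.ker π = LinearMap.range φ := by
  obtain ⟨k0, hk0⟩ := Ideal.exists_pow_inf_eq_pow_smul (IsLocalRing.maximalIdeal A)
    (LinearMap.ker π)
  obtain ⟨y, hy, hle⟩ := h (k0 + 1) (by omega)
  have hyK : Submodule.span A (Set.range y) ≤ LinearMap.ker π := by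
    rw [Submodule.span_le]
    rintro _ ⟨j, rfl⟩
    exact hy j
  have h1 := hk0 (k0 + 1) (by omega)
  rw [Nat.add_sub_cancel_left, pow_one] at h1
  have h2 : LinearMap.ker π ≤ Submodule.span A (Set.range y) ⊔
      IsLocalRing.maximalIdeal A • LinearMap.ker π := by
    intro x hx
    obtain ⟨s, hs, t, ht, rfl⟩ := Submodule.mem_sup.1 (hle hx)
    refine Submodule.add_mem_sup hs ?_
    have h3 : t ∈ LinearMap.ker π := by
      have h4 := Submodule.sub_mem _ hx (hyK hs)
      rwa [add_sub_cancel_left] at h4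
    have h5 : t ∈ IsLocalRing.maximalIdeal A ^ (k0 + 1) • (⊤ : Submodule A (Fin p → A)) ⊓
      LinearMap.ker π := ⟨ht, h3⟩
    rw [h1] at h5
    exact Submodule.smul_mono le_rfl inf_le_right h5
  have h3 : LinearMap.ker π ≤ Submodule.span A (Set.range y) :=
    Submodule.le_of_le_smul_of_le_jacobson_bot (IsNoetherian.noetherian _)
      (by rw [IsLocalRing.jacobson_eq_maximalIdeal _ bot_ne_top]) h2
  exact ⟨Fintype.linearCombination A y, by
    rw [Fintype.range_linearCombination]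
    exact le_antisymm h3 hyK⟩

end

end Pool.Agent.D0H78.GN
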