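import Pool.Agent.D0H79.GN.Stm8
import Pool.Agent.D0H78.GN.LpCore

set_option autoImplicit false

/-!
# Project GN, stage 8, module LP8 (helper78)
-/

namespace Pool.Agent.D0H78.GN

open Pool.Agent.D0H79.GN
open scoped TensorProduct
open Function

theorem t_LP8 : S_SCH8 → S_LP8 := by
  intro hS A _ _ _ D _ _ _ p q h
  obtain ⟨π, hπ⟩ : ∃ π : (Fin p → A) →ₗ[A] D, Surjective π := by
    obtain ⟨φ1, π1, h1, -⟩ := h 1
    exact gens (IsLocalRing.maximalIdeal A ^ 1)
      (by rw [pow_one, IsLocalRing.jacobson_eq_maximalIdeal _ bot_ne_top]) π1 h1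
  obtain ⟨φ, hφ⟩ := lp_core (q := q) π fun k hk => by
    have hne : IsLocalRing.maximalIdeal A ^ k ≠ ⊤ := fun h0 =>
      (IsLocalRing.maximalIdeal.isMaximal A).ne_top
        (top_le_iff.1 (h0 ▸ Ideal.pow_le_self (by omega)))
    have hnt : Nontrivial (A ⧸ IsLocalRing.maximalIdeal A ^ k) :=
      Ideal.Quotient.nontrivial_iff.2 hne
    have hloc : IsLocalRing (A ⧸ IsLocalRing.maximalIdeal A ^ k) :=
      IsLocalRing.of_surjective' (Ideal.Quotient.mk _) Ideal.Quotient.mk_surjective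
    obtain ⟨π', hs', h'⟩ := red (IsLocalRing.maximalIdeal A ^ k) π hπ
    obtain ⟨φ', hφ'⟩ := hS _ _ p q (h k) π' hs'
    exact lift_rel _ π hπ π' h' φ' hφ'
  exact ⟨φ, π, hπ, hφ⟩

end Pool.Agent.D0H78.GN
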