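import Mathlib

set_option autoImplicit false

/-!
# Over a local ring the number of relations of a module does not depend on the generators (Schanuel's lemma)

Helper file of project GN (helper78). Mathlib only.
-/

namespace Pool.Agent.D0H78.GN

open scoped TensorProduct
open Function

section

variable {B : Type} [CommRing B] {M : Type} [AddCommGroup M] [Module B M] {p : ℕ}

/-- Schanuel's lemma. -/
theorem schanuel (π π0 : (Fin p → B) →ₗ[B] M) (h : Surjective π) (h0 : Surjective π0) :
    Nonempty ((LinearMap.ker π × (Fin p → B)) ≃ₗ[B] (LinearMap.ker π0 × (Fin p → B))) := by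
  obtain ⟨s, hs⟩ := Module.projective_lifting_property π0 π h0
  obtain ⟨t, ht⟩ := Module.projective_lifting_property π π0 h
  have hs' : ∀ x, π0 (s x) = π x := fun x => LinearMap.congr_fun hs x
  have ht' : ∀ y, π (t y) = π0 y := fun y => LinearMap.congr_fun ht y
  let X : (LinearMap.ker π × (Fin p → B)) →ₗ[B] (Fin p → B) :=
    (LinearMap.ker π).subtype ∘ₗ LinearMap.fst B _ _ + t ∘ₗ LinearMap.snd B _ _
  let Y : (LinearMap.ker π0 × (Fin p → B)) →ₗ[B] (Fin p → B) :=
    (LinearMap.ker π0).subtype ∘ₗ LinearMap.fst B _ _ + s ∘ₗ LinearMap.snd B _ _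
  have hX : ∀ z, X z = (z.1 : Fin p → B) + t z.2 := fun z => rfl
  have hY : ∀ z, Y z = (z.1 : Fin p → B) + s z.2 := fun z => rfl
  let F : (LinearMap.ker π × (Fin p → B)) →ₗ[B] (LinearMap.ker π0 × (Fin p → B)) :=
    (LinearMap.codRestrict (LinearMap.ker π0) (LinearMap.snd B _ _ - s ∘ₗ X) (by
      intro z
      have h1 : π (z.1 : Fin p → B) = 0 := z.1.2
      rw [LinearMap.mem_ker, LinearMap.sub_apply, LinearMap.comp_apply, map_sub, hs', hX, map_add,
        h1, ht', zero_add, LinearMap.snd_apply, sub_self])).prod X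
  let G : (LinearMap.ker π0 × (Fin p → B)) →ₗ[B] (LinearMap.ker π × (Fin p → B)) :=
    (LinearMap.codRestrict (LinearMap.ker π) (LinearMap.snd B _ _ - t ∘ₗ Y) (by
      intro z
      have h1 : π0 (z.1 : Fin p → B) = 0 := z.1.2
      rw [LinearMap.mem_ker, LinearMap.sub_apply, LinearMap.comp_apply, map_sub, ht', hY, map_add,
        h1, hs', zero_add, LinearMap.snd_apply, sub_self])).prod Y
  have hF1 : ∀ z, ((F z).1 : Fin p → B) = z.2 - s (X z) := fun z => rfl
  have hF2 : ∀ z, (F z).2 = X z := fun z => rfl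
  have hG1 : ∀ z, ((G z).1 : Fin p → B) = z.2 - t (Y z) := fun z => rfl
  have hG2 : ∀ z, (G z).2 = Y z := fun z => rfl
  refine ⟨LinearEquiv.ofLinearMap F G ?_ ?_⟩
  · refine LinearMap.ext fun z => ?_
    have h1 : X (G z) = z.2 := by rw [hX, hG1, hG2, sub_add_cancel]
    refine Prod.ext (Subtype.ext ?_) ?_
    · rw [LinearMap.comp_apply, LinearMap.id_apply, hF1, h1, hG2, hY, add_sub_cancel_right]
    · rw [LinearMap.comp_apply, LinearMap.id_apply, hF2, h1]
  · refine LinearMap.ext fun z => ?_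
    have h1 : Y (F z) = z.2 := by rw [hY, hF1, hF2, sub_add_cancel]
    refine Prod.ext (Subtype.ext ?_) ?_
    · rw [LinearMap.comp_apply, LinearMap.id_apply, hG1, h1, hF2, hX, add_sub_cancel_right]
    · rw [LinearMap.comp_apply, LinearMap.id_apply, hG2, h1]

open IsLocalRing in
theorem finrank_ker_le [IsLocalRing B] {K K0 : Type} [AddCommGroup K] [Module B K]
    [AddCommGroup K0] [Module B K0] (e : (K × (Fin p → B)) ≃ₗ[B] (K0 × (Fin p → B))) {q : ℕ}
    (g : (Fin q → B) →ₗ[B] K0) (hg : Surjective g) :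
    Module.Finite B K ∧
      Module.finrank (ResidueField B) (ResidueField B ⊗[B] K) ≤ q := by
  have f0 : Module.Finite B K0 := Module.Finite.of_surjective g hg
  have f1 : Module.Finite B (K × (Fin p → B)) :=
    Module.Finite.of_surjective e.symm.toLinearMap e.symm.surjective
  have f2 : Module.Finite B K :=
    Module.Finite.of_surjective (LinearMap.fst B K (Fin p → B)) LinearMap.fst_surjective
  refine ⟨f2, ?_⟩
  let k := ResidueField B
  have e1 : (k ⊗[B] (K × (Fin p → B))) ≃ₗ[k] (k ⊗[B] (K0 × (Fin p → B))) :=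
    TensorProduct.AlgebraTensorModule.congr (LinearEquiv.refl k k) e
  have e2 : (k ⊗[B] (K × (Fin p → B))) ≃ₗ[k] (k ⊗[B] K) × (k ⊗[B] (Fin p → B)) :=
    TensorProduct.prodRight B k k K (Fin p → B)
  have e3 : (k ⊗[B] (K0 × (Fin p → B))) ≃ₗ[k] (k ⊗[B] K0) × (k ⊗[B] (Fin p → B)) :=
    TensorProduct.prodRight B k k K0 (Fin p → B)
  have h1 := (e2.symm.trans (e1.trans e3)).finrank_eq
  rw [Module.finrank_prod, Module.finrank_prod] at h1
  have h2 : Module.finrank k (k ⊗[B] K) = Module.finrank k (k ⊗[B] K0) := by omega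
  rw [h2]
  have h3 : Surjective (g.baseChange k) := LinearMap.lTensor_surjective k hg
  have h4 := LinearMap.finrank_range_le (g.baseChange k)
  have h5 : Module.finrank k (k ⊗[B] (Fin q → B)) = q := by
    rw [Module.finrank_baseChange, Module.finrank_fin_fun]
  rw [LinearMap.range_eq_top.2 h3, finrank_top, h5] at h4
  exact h4

open IsLocalRing in
theorem exists_gens [IsLocalRing B] {K : Type} [AddCommGroup K] [Module B K] [Module.Finite B K]
    {q : ℕ} (h : Module.finrank (ResidueField B) (ResidueField B ⊗[B] K) ≤ q) :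
    ∃ g : (Fin q → B) →ₗ[B] K, Surjective g := by
  let k := ResidueField B
  let b := Module.finBasis k (k ⊗[B] K)
  have hs : Surjective (TensorProduct.mk B k K 1) :=
    TensorProduct.mk_surjective B K k Ideal.Quotient.mk_surjective
  choose f hf using fun i => hs (b i)
  have hspan : Submodule.span B (Set.range f) = ⊤ :=
    IsLocalRing.span_eq_top_of_tmul_eq_basis f b hf
  let v : Fin q → K := fun i => if hi : (i : ℕ) < Module.finrank k (k ⊗[B] K) then f ⟨i, hi⟩ else 0
  refine ⟨Fintype.linearCombination B v, ?_⟩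
  rw [← LinearMap.range_eq_top, Fintype.range_linearCombination, eq_top_iff, ← hspan]
  refine Submodule.span_mono ?_
  rintro _ ⟨j, rfl⟩
  refine ⟨⟨j, lt_of_lt_of_le j.2 h⟩, ?_⟩
  simp only [v]
  rw [dif_pos j.2]

theorem sch_core [IsLocalRing B] {q : ℕ} (φ0 : (Fin q → B) →ₗ[B] (Fin p → B))
    (π0 : (Fin p → B) →ₗ[B] M) (h0 : Surjective π0) (e0 : LinearMap.ker π0 = LinearMap.range φ0)
    (π : (Fin p → B) →ₗ[B] M) (h : Surjective π) :
    ∃ φ : (Fin q → B) →ₗ[B] (Fin p → B), LinearMap.ker π = LinearMap.range φ := by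
  obtain ⟨e⟩ := schanuel π π0 h h0
  let g : (Fin q → B) →ₗ[B] LinearMap.ker π0 :=
    LinearMap.codRestrict (LinearMap.ker π0) φ0 fun c => by
      rw [e0]
      exact ⟨c, rfl⟩
  have hg : Surjective g := by
    rintro ⟨x, hx⟩
    have hx' := hx
    rw [e0] at hx'
    obtain ⟨c, hc⟩ := hx'
    exact ⟨c, Subtype.ext hc⟩
  obtain ⟨hfin, hr⟩ := finrank_ker_le e g hg
  obtain ⟨g', hg'⟩ := exists_gens hr
  refine ⟨(LinearMap.ker π).subtype ∘ₗ g', ?_⟩
  rw [LinearMap.range_comp, LinearMap.range_eq_top.2 hg', Submodule.map_top,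
    Submodule.range_subtype]

end

end Pool.Agent.D0H78.GN
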