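import Pool.Agent.D0H79.GN.Stm8
import Pool.Agent.D0H78.GN.SchCore

set_option autoImplicit false

/-!
# Project GN, stage 8, module SCH8 (helper78)
-/

namespace Pool.Agent.D0H78.GN

open Pool.Agent.D0H79.GN

theorem t_SCH8 : S_SCH8 := by
  intro B _ _ M _ _ p q h π hπ
  obtain ⟨φ0, π0, h0, e0⟩ := h
  exact sch_core φ0 π0 h0 e0 π hπ

end Pool.Agent.D0H78.GN
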